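import Pool.Agent.H20.T4.Stm

/-!
Project TM4 (MP_b6022c_nt), sub-rows of CELL: the directions of a cell, and the transfer from the
digits `[0, V)` to the digits `[0, 2a)` for one point of the box.
-/

namespace Pool.Agent.H44.T4

open Finset Pool.Agent.H9.TC Pool.Agent.H20.TM Pool.Agent.H20.T4

/-- One direction for each window `[2a + l w, 2a + (l+1) w)`, `l < kk`. -/
def DIRSStmt : Prop :=
  ∀ (c Cf g Z kk : ℕ), 1 ≤ c → ∃ w0 : ℕ, ∀ w ≥ w0, ∀ ν a ED D : ℕ, a + w = ν → 2000 * w ≤ ED →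
    10 * ED ≤ ν → 1 ≤ D → D ≤ 2 ^ ED → ∀ n0 : ℕ, n0 < 2 ^ ν → Dcond c w a D n0 →
    ∃ hs xt : Fin kk → ℕ, (∀ l, hs l ≤ 2 ^ (71 * w)) ∧ (∀ l, xt l ≤ 2 ^ (17 * w)) ∧
      (∀ l, 1 ≤ hs l + D * xt l) ∧
      ∀ l : Fin kk, Close c Cf g Z w a D (2 * a + l * w) (2 * a + (l + 1) * w) n0
        ((hs l : ℤ) + D * xt l)

theorem cellDirs (hT : TOPStmt) (hG : GAPStmt) : DIRSStmt := by
  intro c Cf g Z kk hc
  obtain ⟨w1, h1⟩ := hT c Cf g Z kk hc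
  obtain ⟨w2, h2⟩ := hG c Cf g Z hc
  refine ⟨max w1 w2, ?_⟩
  intro w hw ν a ED D hν hED hED2 hD hD2 n0 hn0 hDc
  have key : ∀ l : Fin kk, ∃ h x : ℕ, h ≤ 2 ^ (71 * w) ∧ x ≤ 2 ^ (17 * w) ∧ 1 ≤ h + D * x ∧
      Close c Cf g Z w a D (2 * a + l * w) (2 * a + (l + 1) * w) n0 ((h : ℤ) + D * x) := by
    intro l
    rcases Nat.lt_or_ge l.1 480 with hl | hl
    · obtain ⟨t, ht1, ht2, ht3⟩ := h2 w (le_trans (le_max_right _ _) hw) ν a ED D hν hED hED2 hD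
        hD2 n0 hn0 hDc (l.1 + 1) (by omega) (by omega)
      refine ⟨0, t, by positivity, ht2, ?_, ?_⟩
      · have : 1 ≤ D * t := Nat.mul_pos hD ht1
        omega
      · simpa using ht3
    · obtain ⟨h, hh1, hh2, hh3⟩ := h1 w (le_trans (le_max_left _ _) hw) ν a ED D hν hED hED2 hD
        hD2 n0 hn0 (l.1 + 1) (by omega) (by have := l.2; omega)
      refine ⟨h, 0, hh2, by positivity, by omega, ?_⟩
      simpa using hh3
  choose hs xt k1 k2 k3 k4 using key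
  exact ⟨hs, xt, k1, k2, k3, k4⟩

end Pool.Agent.H44.T4
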