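import Pool.Agent.H20.T4.Stm
import Pool.Agent.H9.TC.Basic
import Pool.Agent.H9.TC.CD

/-!
Project TM4 (MP_b6022c_nt), sub-row (C-b) of CELL: the transfer from the digits `[0, V)` to the
digits `[0, 2a)` for one point `j` of the box, from (WIN), the directions of the cell and the
near-boundary clause of `CellGood`.
-/

namespace Pool.Agent.H44.T4

open Finset Pool.Agent.H9.TC Pool.Agent.H20.TM Pool.Agent.H20.T4

/-- (C-b). `w` large means `kk 2^Z <= 2^w`. -/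
def TRANSStmt : Prop :=
  ∀ (q1 c Cf g kk Z w a V D M : ℕ) (ε1 : ℝ), 0 ≤ ε1 → 1 ≤ w → kk * 2 ^ Z ≤ 2 ^ w → M ≤ 2 ^ w →
    2 * a ≤ V → V ≤ 2 * a + kk * w → g ≤ 2 * a →
    ∀ d e f g' : Fin q1 → ℤ, (∀ i, |d i| ≤ Cf) → (∀ i, |e i| ≤ Cf) → (∀ i, |f i| ≤ Cf) →
      (∀ i, |g' i| ≤ Cf) → ∀ n0 : ℕ,
    (∀ i, ∀ l ≤ kk, 2 * a + l * w ≤ V →
      (cnt3 (2 ^ (400 * w + 1)) (2 ^ (18 * w + 1)) M
        (fun s x m => near (2 * a + l * w) ((2 : ℤ) ^ (2 * a + l * w - g))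
          (qua c (d i) (e i) (f i) (g' i) ((n0 : ℤ) + s + D * x + 2 ^ a * m))) : ℝ)
        ≤ ε1 * (2 ^ (400 * w) * 2 ^ (18 * w) * M)) →
    ∀ hs xt : Fin kk → ℕ, (∀ l, hs l ≤ 2 ^ (71 * w)) → (∀ l, xt l ≤ 2 ^ (17 * w)) →
    (∀ l : Fin kk, Close c Cf g Z w a D (2 * a + l * w) (2 * a + (l + 1) * w) n0
      ((hs l : ℤ) + D * xt l)) →
    ∀ j ∈ box kk (2 ^ Z),
    |∑ m ∈ range M, ∑ x ∈ range (2 ^ (18 * w)), ∑ s ∈ range (2 ^ (400 * w)),
      ∏ η : Fin kk → Bool, ∏ i, TW 0 V (qua c (d i) (e i) (f i) (g' i)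
        ((n0 : ℤ) + ((s + ∑ l, j.2 (l, η l) * hs l : ℕ) : ℤ)
          + D * ((x + ∑ l, j.2 (l, η l) * xt l : ℕ) : ℤ) + 2 ^ a * m))| ≤
    |∑ m ∈ range M, ∑ x ∈ range (2 ^ (18 * w)), ∑ s ∈ range (2 ^ (400 * w)),
      ∏ η : Fin kk → Bool, ∏ i, TW 0 (2 * a) (qua c (d i) (e i) (f i) (g' i)
        ((n0 : ℤ) + s + D * x + 2 ^ a * m + (((∑ l, j.2 (l, η l) * hs l : ℕ) : ℤ)
          + D * ((∑ l, j.2 (l, η l) * xt l : ℕ) : ℤ))))| +
      2 * (q1 * 2 ^ kk * (kk + 1)) * ε1 * (2 ^ (400 * w) * 2 ^ (18 * w) * M)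

theorem cnt_false {M : ℕ} {P : ℕ → Prop} (h : ∀ m, ¬ P m) : cnt M P = 0 := by
  classical
  unfold cnt
  exact card_eq_zero.2 (filter_false_of_mem fun m _ => h m)

theorem cnt_shift_le {A A' h : ℕ} (P : ℕ → Prop) (hA : A + h ≤ A') :
    cnt A (fun s => P (s + h)) ≤ cnt A' P := by
  classical
  unfold cnt
  refine card_le_card_of_injOn (fun s => s + h) ?_ ?_
  · intro s hs
    simp only [coe_filter, mem_range, Set.mem_ofPred_eq] at hs ⊢
    exact ⟨by omega, hs.2⟩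
  · intro x _ y _ hxy
    simpa using hxy

theorem sum_shift_le {B B' t : ℕ} (F : ℕ → ℕ) (hB : B + t ≤ B') :
    ∑ x ∈ range B, F (x + t) ≤ ∑ x ∈ range B', F x := by
  rw [← Finset.sum_image (s := range B) (g := fun x => x + t) (f := F)
    (fun x _ y _ hxy => by simpa using hxy)]
  refine Finset.sum_le_sum_of_subset ?_
  intro y hy
  simp only [mem_image, mem_range] at hy ⊢
  obtain ⟨x, hx, rfl⟩ := hy
  omega

/-- Shifting inside the doubled box. -/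
theorem cnt3_shift_le {A A' B B' M h t : ℕ} (P : ℕ → ℕ → ℕ → Prop) (hA : A + h ≤ A')
    (hB : B + t ≤ B') :
    ∑ m ∈ range M, ∑ x ∈ range B, cnt A (fun s => P (s + h) (x + t) m) ≤ cnt3 A' B' M P := by
  unfold cnt3 cnt2
  refine sum_le_sum fun m _ => ?_
  refine le_trans ?_ (sum_shift_le (fun x => cnt A' (fun s => P s x m)) hB)
  exact sum_le_sum fun x _ => cnt_shift_le (fun s => P s (x + t) m) hA

theorem box_sum_lt {kk Z w κ : ℕ} {j : ℕ × (Fin kk × Bool → ℕ)} (hj : j ∈ box kk (2 ^ Z))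
    (hk : kk * 2 ^ Z ≤ 2 ^ w) (η : Fin kk → Bool) (hs : Fin kk → ℕ) (hh : ∀ l, hs l ≤ 2 ^ κ) :
    ∑ l, j.2 (l, η l) * hs l ≤ 2 ^ (w + κ) := by
  obtain ⟨_, hj2⟩ := cd_box_lt hj
  calc ∑ l, j.2 (l, η l) * hs l ≤ ∑ _l : Fin kk, 2 ^ Z * 2 ^ κ := by
        refine sum_le_sum fun l _ => ?_
        exact Nat.mul_le_mul (hj2 _).le (hh l)
    _ = kk * 2 ^ Z * 2 ^ κ := by simp [mul_assoc]
    _ ≤ 2 ^ w * 2 ^ κ := Nat.mul_le_mul_right _ hk
    _ = 2 ^ (w + κ) := by rw [pow_add]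

theorem trans (hW : WINStmt) : TRANSStmt := by
  intro q1 c Cf g kk Z w a V D M ε1 hε1 hw hkZ hM haV hVk hg d e f g' hd he hf hg' n0 hnear hs xt
    hhs hxt hC j hj
  classical
  -- the two shifts
  set Sh : (Fin kk → Bool) → ℕ := fun η => ∑ l, j.2 (l, η l) * hs l with hSh
  set Sx : (Fin kk → Bool) → ℕ := fun η => ∑ l, j.2 (l, η l) * xt l with hSx
  have hSh_le : ∀ η, 2 ^ (400 * w) + Sh η ≤ 2 ^ (400 * w + 1) := by
    intro η
    have h1 := box_sum_lt hj hkZ η hs hhs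
    have h2 : 2 ^ (w + 71 * w) ≤ 2 ^ (400 * w) := Nat.pow_le_pow_right (by norm_num) (by omega)
    have h3 : 2 ^ (400 * w + 1) = 2 * 2 ^ (400 * w) := by rw [pow_succ]; ring
    have h4 : Sh η ≤ 2 ^ (w + 71 * w) := h1
    omega
  have hSx_le : ∀ η, 2 ^ (18 * w) + Sx η ≤ 2 ^ (18 * w + 1) := by
    intro η
    have h1 := box_sum_lt hj hkZ η xt hxt
    have h2 : 2 ^ (w + 17 * w) ≤ 2 ^ (18 * w) := Nat.pow_le_pow_right (by norm_num) (by omega)
    have h3 : 2 ^ (18 * w + 1) = 2 * 2 ^ (18 * w) := by rw [pow_succ]; ring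
    have h4 : Sx η ≤ 2 ^ (w + 17 * w) := h1
    omega
  set H : Fin kk → ℤ := fun l => (hs l : ℤ) + D * xt l with hH
  have hpsi : ∀ η, psi 0 H η j = (Sh η : ℤ) + D * (Sx η : ℤ) := by
    intro η
    simp only [psi, hH, hSh, hSx]
    push_cast
    rw [mul_zero, zero_add, mul_sum, ← sum_add_distrib]
    refine sum_congr rfl fun l _ => ?_
    ring
  -- the near sets
  set T : Finset (Fin q1 × (Fin kk → Bool) × ℕ) := univ ×ˢ univ ×ˢ range (kk + 1) with hT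
  set Q : Fin q1 × (Fin kk → Bool) × ℕ → ℕ → ℕ → ℕ → Prop := fun t s x m =>
    2 * a + t.2.2 * w ≤ V ∧ near (2 * a + t.2.2 * w) ((2 : ℤ) ^ (2 * a + t.2.2 * w - g))
      (qua c (d t.1) (e t.1) (f t.1) (g' t.1) ((n0 : ℤ) + s + D * x + 2 ^ a * m)) with hQ
  set G1 : ℕ → ℕ → ℕ → ℝ := fun m x s => ∏ η : Fin kk → Bool, ∏ i, TW 0 V
    (qua c (d i) (e i) (f i) (g' i) ((n0 : ℤ) + ((s + Sh η : ℕ) : ℤ) + D * ((x + Sx η : ℕ) : ℤ)
      + 2 ^ a * m)) with hG1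
  set G2 : ℕ → ℕ → ℕ → ℝ := fun m x s => ∏ η : Fin kk → Bool, ∏ i, TW 0 (2 * a)
    (qua c (d i) (e i) (f i) (g' i) ((n0 : ℤ) + s + D * x + 2 ^ a * m + ((Sh η : ℤ)
      + D * (Sx η : ℤ)))) with hG2
  have hone : ∀ (u v : ℕ) (y : (Fin kk → Bool) → Fin q1 → ℤ),
      |∏ η : Fin kk → Bool, ∏ i, TW u v (y η i)| ≤ 1 := by
    intro u v y
    rw [abs_prod]
    refine le_of_eq (prod_eq_one fun η _ => ?_)
    rw [abs_prod]
    exact prod_eq_one fun i _ => abs_TW _ _ _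
  -- equality off the near sets
  have heq : ∀ m < M, ∀ x < 2 ^ (18 * w), ∀ s < 2 ^ (400 * w),
      ¬ (∃ t ∈ T, Q t (s + Sh t.2.1) (x + Sx t.2.1) m) → G1 m x s = G2 m x s := by
    intro m hm x hx s hs' hno
    have harg : ∀ η, (n0 : ℤ) + ((s + Sh η : ℕ) : ℤ) + D * ((x + Sx η : ℕ) : ℤ) + 2 ^ a * m =
        ((n0 : ℤ) + s + D * x + 2 ^ a * m) + psi 0 H η j := by
      intro η
      rw [hpsi η]
      push_cast
      ring
    simp only [hG1, hG2]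
    rw [prod_comm]
    rw [prod_comm (f := fun η i => TW 0 (2 * a) (qua c (d i) (e i) (f i) (g' i)
      ((n0 : ℤ) + s + D * x + 2 ^ a * m + ((Sh η : ℤ) + D * (Sx η : ℤ)))))]
    refine prod_congr rfl fun i _ => ?_
    have hw1 := hW kk w a V Z g (qua c (d i) (e i) (f i) (g' i)) H j
      ((n0 : ℤ) + s + D * x + 2 ^ a * m) hj haV hVk hg ?_ ?_
    · refine Eq.trans ?_ (hw1.trans ?_)
      · refine prod_congr rfl fun η _ => ?_
        rw [harg η]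
      · refine prod_congr rfl fun η _ => ?_
        rw [hpsi η]
    · intro l η δ hδ
      have h1 := hC l (d i) (e i) (f i) (g' i) (hd i) (he i) (hf i) (hg' i) (s + Sh η)
        (by have := hSh_le η; omega) (x + Sx η) (by have := hSx_le η; omega) m (by omega) δ hδ
      rw [harg η] at h1
      exact h1
    · intro l hl η hn
      refine hno ⟨(i, η, (l : ℕ)), ?_, ?_⟩
      · simp only [hT, mem_product, mem_univ, mem_range, true_and]
        exact lt_of_lt_of_le l.2 (Nat.le_succ kk)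
      · refine ⟨hl, ?_⟩
        have h2 := harg η
        simp only [] at hn ⊢
        rw [h2]
        exact hn
  -- the counting
  have hcount : ∀ t ∈ T, ((∑ m ∈ range M, ∑ x ∈ range (2 ^ (18 * w)),
      cnt (2 ^ (400 * w)) (fun s => Q t (s + Sh t.2.1) (x + Sx t.2.1) m) : ℕ) : ℝ) ≤
        ε1 * (2 ^ (400 * w) * 2 ^ (18 * w) * M) := by
    intro t ht
    simp only [hT, mem_product, mem_univ, mem_range, true_and] at ht
    have hnn : (0 : ℝ) ≤ ε1 * (2 ^ (400 * w) * 2 ^ (18 * w) * M) := by positivity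
    by_cases hV : 2 * a + t.2.2 * w ≤ V
    · have h1 := cnt3_shift_le (M := M) (Q t) (hSh_le t.2.1) (hSx_le t.2.1)
      have h2 : cnt3 (2 ^ (400 * w + 1)) (2 ^ (18 * w + 1)) M (Q t) ≤
          cnt3 (2 ^ (400 * w + 1)) (2 ^ (18 * w + 1)) M
        (fun s x m => near (2 * a + t.2.2 * w) ((2 : ℤ) ^ (2 * a + t.2.2 * w - g))
          (qua c (d t.1) (e t.1) (f t.1) (g' t.1) ((n0 : ℤ) + s + D * x + 2 ^ a * m))) := by
        unfold cnt3 cnt2
        refine sum_le_sum fun m _ => sum_le_sum fun x _ => cnt_mono fun s _ h => ?_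
        exact h.2
      have h3 := hnear t.1 t.2.2 (by omega) hV
      have h4 : ((∑ m ∈ range M, ∑ x ∈ range (2 ^ (18 * w)),
        cnt (2 ^ (400 * w)) (fun s => Q t (s + Sh t.2.1) (x + Sx t.2.1) m) : ℕ) : ℝ) ≤
        ((cnt3 (2 ^ (400 * w + 1)) (2 ^ (18 * w + 1)) M
        (fun s x m => near (2 * a + t.2.2 * w) ((2 : ℤ) ^ (2 * a + t.2.2 * w - g))
          (qua c (d t.1) (e t.1) (f t.1) (g' t.1) ((n0 : ℤ) + s + D * x + 2 ^ a * m))) : ℕ) : ℝ) :=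
        by exact_mod_cast h1.trans h2
      exact h4.trans h3
    · have h0 : ∀ m x : ℕ, cnt (2 ^ (400 * w)) (fun s => Q t (s + Sh t.2.1) (x + Sx t.2.1) m) = 0 := by
        intro m x
        exact cnt_false fun s h => hV h.1
      simp only [h0, sum_const_zero, Nat.cast_zero]
      exact hnn
  -- the difference
  have hdiff : |∑ m ∈ range M, ∑ x ∈ range (2 ^ (18 * w)), ∑ s ∈ range (2 ^ (400 * w)), G1 m x s -
      ∑ m ∈ range M, ∑ x ∈ range (2 ^ (18 * w)), ∑ s ∈ range (2 ^ (400 * w)), G2 m x s| ≤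
      2 * (q1 * 2 ^ kk * (kk + 1)) * ε1 * (2 ^ (400 * w) * 2 ^ (18 * w) * M) := by
    have e1 : ∀ m ∈ range M, ∀ x ∈ range (2 ^ (18 * w)),
        |∑ s ∈ range (2 ^ (400 * w)), G1 m x s - ∑ s ∈ range (2 ^ (400 * w)), G2 m x s| ≤
        2 * ((∑ t ∈ T, cnt (2 ^ (400 * w))
          (fun s => Q t (s + Sh t.2.1) (x + Sx t.2.1) m) : ℕ) : ℝ) := by
      intro m hm x hx
      have h1 := abs_sum_sub_le (M := 2 ^ (400 * w)) (f := G1 m x) (g := G2 m x)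
        (P := fun s => ∃ t ∈ T, Q t (s + Sh t.2.1) (x + Sx t.2.1) m)
        (fun s _ => hone _ _ _) (fun s _ => hone _ _ _)
        (fun s hs' hn => heq m (mem_range.1 hm) x (mem_range.1 hx) s hs' hn)
      have h2 := cnt_exists (2 ^ (400 * w)) T (fun t s => Q t (s + Sh t.2.1) (x + Sx t.2.1) m)
      have h3 : ((cnt (2 ^ (400 * w)) (fun s => ∃ t ∈ T, Q t (s + Sh t.2.1) (x + Sx t.2.1) m) : ℕ) : ℝ)
          ≤ ((∑ t ∈ T, cnt (2 ^ (400 * w))
          (fun s => Q t (s + Sh t.2.1) (x + Sx t.2.1) m) : ℕ) : ℝ) := by exact_mod_cast h2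
      linarith
    have e2 : |∑ m ∈ range M, ∑ x ∈ range (2 ^ (18 * w)), ∑ s ∈ range (2 ^ (400 * w)), G1 m x s -
      ∑ m ∈ range M, ∑ x ∈ range (2 ^ (18 * w)), ∑ s ∈ range (2 ^ (400 * w)), G2 m x s| ≤
      ∑ m ∈ range M, ∑ x ∈ range (2 ^ (18 * w)), 2 * ((∑ t ∈ T, cnt (2 ^ (400 * w))
          (fun s => Q t (s + Sh t.2.1) (x + Sx t.2.1) m) : ℕ) : ℝ) := by
      rw [← sum_sub_distrib]
      refine (abs_sum_le_sum_abs _ _).trans (sum_le_sum fun m hm => ?_)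
      rw [← sum_sub_distrib]
      exact (abs_sum_le_sum_abs _ _).trans (sum_le_sum fun x hx => e1 m hm x hx)
    have e3 : ∑ m ∈ range M, ∑ x ∈ range (2 ^ (18 * w)), 2 * ((∑ t ∈ T, cnt (2 ^ (400 * w))
          (fun s => Q t (s + Sh t.2.1) (x + Sx t.2.1) m) : ℕ) : ℝ) =
        2 * ∑ t ∈ T, ((∑ m ∈ range M, ∑ x ∈ range (2 ^ (18 * w)),
      cnt (2 ^ (400 * w)) (fun s => Q t (s + Sh t.2.1) (x + Sx t.2.1) m) : ℕ) : ℝ) := by
      push_cast
      rw [mul_sum]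
      calc _ = ∑ m ∈ range M, ∑ t ∈ T, ∑ x ∈ range (2 ^ (18 * w)),
            2 * (cnt (2 ^ (400 * w)) (fun s => Q t (s + Sh t.2.1) (x + Sx t.2.1) m) : ℝ) := by
            refine sum_congr rfl fun m _ => ?_
            rw [sum_comm]
            refine sum_congr rfl fun x _ => ?_
            rw [mul_sum]
        _ = ∑ t ∈ T, ∑ m ∈ range M, ∑ x ∈ range (2 ^ (18 * w)),
            2 * (cnt (2 ^ (400 * w)) (fun s => Q t (s + Sh t.2.1) (x + Sx t.2.1) m) : ℝ) := sum_comm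
        _ = _ := by
            refine sum_congr rfl fun t _ => ?_
            rw [mul_sum]
            refine sum_congr rfl fun m _ => ?_
            rw [mul_sum]
    refine (e2.trans_eq e3).trans ?_
    have e4 : ∑ t ∈ T, ((∑ m ∈ range M, ∑ x ∈ range (2 ^ (18 * w)),
      cnt (2 ^ (400 * w)) (fun s => Q t (s + Sh t.2.1) (x + Sx t.2.1) m) : ℕ) : ℝ) ≤
        (q1 * 2 ^ kk * (kk + 1)) * (ε1 * (2 ^ (400 * w) * 2 ^ (18 * w) * M)) := by
      refine (sum_le_card_nsmul _ _ _ hcount).trans_eq ?_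
      rw [nsmul_eq_mul]
      congr 1
      simp only [hT, card_product, card_univ, Fintype.card_fin, Fintype.card_fun, Fintype.card_bool,
        card_range]
      push_cast
      ring
    nlinarith [e4]
  have hfin := abs_sub_abs_le_abs_sub
    (∑ m ∈ range M, ∑ x ∈ range (2 ^ (18 * w)), ∑ s ∈ range (2 ^ (400 * w)), G1 m x s)
    (∑ m ∈ range M, ∑ x ∈ range (2 ^ (18 * w)), ∑ s ∈ range (2 ^ (400 * w)), G2 m x s)
  have := hfin.trans hdiff
  show |∑ m ∈ range M, ∑ x ∈ range (2 ^ (18 * w)), ∑ s ∈ range (2 ^ (400 * w)), G1 m x s| ≤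
    |∑ m ∈ range M, ∑ x ∈ range (2 ^ (18 * w)), ∑ s ∈ range (2 ^ (400 * w)), G2 m x s| + _
  linarith

end Pool.Agent.H44.T4
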