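import Pool.Agent.H44.T4.Trans

/-!
Project TM4 (MP_b6022c_nt), sub-row (C-b) of CELL in the form `CBStmt` of helper9.
-/

namespace Pool.Agent.H44.T4

open Finset Pool.Agent.H9.TC Pool.Agent.H20.TM Pool.Agent.H20.T4

def CBStmt : Prop :=
  ∀ (q1 q c Cf kk Z g : ℕ), 1 ≤ c → ∃ w0 : ℕ, ∀ w ≥ w0, ∀ a V D p L g9 v1 K1 K2 M τ : ℕ,
    2 * a ≤ V → V ≤ 2 * a + kk * w → g ≤ 2 * a → M ≤ 2 ^ w → ∀ (ε1 : ℝ) (d e f g' : Fin q1 → ℤ),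
    (∀ i, |d i| ≤ Cf) → (∀ i, |e i| ≤ Cf) → (∀ i, |f i| ≤ Cf) → (∀ i, |g' i| ≤ Cf) → ∀ n0 : ℕ,
    CellGood q p L g g9 v1 K1 K2 M τ c kk w a V D ε1 d e f g' n0 →
    ∀ hs xt : Fin kk → ℕ, (∀ l, hs l ≤ 2 ^ (71 * w)) → (∀ l, xt l ≤ 2 ^ (17 * w)) →
    (∀ l : Fin kk, Close c Cf g Z w a D (2 * a + l * w) (2 * a + (l + 1) * w) n0
      ((hs l : ℤ) + D * xt l)) →
    ∀ j ∈ box kk (2 ^ Z),
    |∑ m ∈ range M, ∑ x ∈ range (2 ^ (18 * w)), ∑ s ∈ range (2 ^ (400 * w)),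
      ∏ η : Fin kk → Bool, ∏ i, TW 0 V (qua c (d i) (e i) (f i) (g' i)
        ((n0 : ℤ) + s + D * x + 2 ^ a * m + psi 0 (fun l => (hs l : ℤ) + D * xt l) η j))| ≤
    |∑ m ∈ range M, ∑ x ∈ range (2 ^ (18 * w)), ∑ s ∈ range (2 ^ (400 * w)),
      ∏ η : Fin kk → Bool, ∏ i, TW 0 (2 * a) (qua c (d i) (e i) (f i) (g' i)
        ((n0 : ℤ) + s + D * x + 2 ^ a * m + psi 0 (fun l => (hs l : ℤ) + D * xt l) η j))| +
      2 * (q1 * 2 ^ kk) * (kk + 1) * ε1 * (2 ^ (400 * w) * 2 ^ (18 * w) * M)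

theorem psi_hx {kk D : ℕ} (hs xt : Fin kk → ℕ) (j : ℕ × (Fin kk × Bool → ℕ)) (η : Fin kk → Bool) :
    psi 0 (fun l => (hs l : ℤ) + D * xt l) η j =
      ((∑ l, j.2 (l, η l) * hs l : ℕ) : ℤ) + D * ((∑ l, j.2 (l, η l) * xt l : ℕ) : ℤ) := by
  simp only [psi]
  push_cast
  rw [mul_zero, zero_add, mul_sum, ← sum_add_distrib]
  refine sum_congr rfl fun l _ => ?_
  ring

theorem cb (hW : WINStmt) : CBStmt := by
  intro q1 q c Cf kk Z g hc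
  refine ⟨kk * 2 ^ Z + 1, ?_⟩
  intro w hw a V D p L g9 v1 K1 K2 M τ haV hVk hg hM ε1 d e f g' hd he hf hg' n0 hG hs xt hhs hxt
    hC j hj
  have hkZ : kk * 2 ^ Z ≤ 2 ^ w := by
    have h1 : w < 2 ^ w := Nat.lt_two_pow_self
    omega
  have hw1 : 1 ≤ w := by omega
  rcases Nat.eq_zero_or_pos q1 with rfl | hq1
  · simp
  rcases Nat.eq_zero_or_pos M with rfl | hMp
  · simp
  have hε1 : 0 ≤ ε1 := by
    have h1 := hG.1 ⟨0, hq1⟩ 0 (Nat.zero_le _) (by omega)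
    have h2 : (0 : ℝ) ≤ ε1 * (2 ^ (400 * w) * 2 ^ (18 * w) * M) := le_trans (Nat.cast_nonneg _) h1
    have h3 : (0 : ℝ) < 2 ^ (400 * w) * 2 ^ (18 * w) * M := by positivity
    exact nonneg_of_mul_nonneg_left h2 h3
  have h1 := trans hW q1 c Cf g kk Z w a V D M ε1 hε1 hw1 hkZ hM haV hVk hg d e f g' hd he hf hg' n0
    hG.1 hs xt hhs hxt hC j hj
  have e1 : ∀ (m x s : ℕ) (η : Fin kk → Bool), (n0 : ℤ) + s + D * x + 2 ^ a * m +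
      psi 0 (fun l => (hs l : ℤ) + D * xt l) η j =
      (n0 : ℤ) + ((s + ∑ l, j.2 (l, η l) * hs l : ℕ) : ℤ)
          + D * ((x + ∑ l, j.2 (l, η l) * xt l : ℕ) : ℤ) + 2 ^ a * m := by
    intro m x s η
    rw [psi_hx]
    push_cast
    ring
  have e2 : ∀ (m x s : ℕ) (η : Fin kk → Bool), (n0 : ℤ) + s + D * x + 2 ^ a * m +
      (((∑ l, j.2 (l, η l) * hs l : ℕ) : ℤ) + D * ((∑ l, j.2 (l, η l) * xt l : ℕ) : ℤ)) =
      (n0 : ℤ) + ((s + ∑ l, j.2 (l, η l) * hs l : ℕ) : ℤ)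
          + D * ((x + ∑ l, j.2 (l, η l) * xt l : ℕ) : ℤ) + 2 ^ a * m := by
    intro m x s η
    push_cast
    ring
  simp only [e2] at h1
  simp only [e1]
  refine h1.trans (le_of_eq ?_)
  ring

end Pool.Agent.H44.T4
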